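import Pool.Agent.MP_13199e_lc.QL.Top

/-! A quasilinear reduction from END OF THE LINE to generalized circuits with an optimal gap. -/

set_option autoImplicit false

namespace Pool.Agent.Results.MP_13199e_lc.QuasiPCP

open Pool.Agent.MP_13199e_lc

theorem result : ∀ η : ℚ, 0 < η → ∃ (s : ℕ) (ε : ℚ) (c : ℕ), 0 < s ∧ 0 < ε ∧
    QReduces c (fun C => s ∣ C.length) (BSol ε η s) :=
  Pool.Agent.PP.QL.quasiOpt

/-- The question as it is posed follows with `η = 1 / 2` and `δ = 1 / (2 s)`. -/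
theorem q1 : ∃ (ε δ : ℚ) (c : ℕ), 0 < ε ∧ 0 < δ ∧ QReduces c (fun _ => True) (GSol ε δ) := by
  obtain ⟨s, ε, c, hs, hε, f, g, pf, pg, h⟩ := result (1 / 2) (by norm_num)
  exact ⟨ε, (1 - 1 / 2) / s, c, hε, by positivity, f, g, pf, pg, fun I hI =>
    ⟨(h I hI).1, trivial, (h I hI).2.2.1, fun x hx =>
      (h I hI).2.2.2 x (Pool.Agent.PP.QL.bsol_of_gsol hs (h I hI).2.1 hx)⟩⟩

/-- The size in terms of the number `n` of input bits if the circuits have a quasilinear number of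
gates. -/
theorem size_bits (k c : ℕ) : ∃ d : ℕ, ∀ I : BCirc × BCirc, ∀ n, I.1.2.length = n → 0 < n →
    I.1.1.length ≤ n * (Nat.log 2 n + 2) ^ k → I.2.1.length ≤ n * (Nat.log 2 n + 2) ^ k →
    sz I * (Nat.log 2 (sz I) + 2) ^ c ≤ n * (Nat.log 2 n + 2) ^ d :=
  Pool.Agent.PP.QL.size_bits k c

end Pool.Agent.Results.MP_13199e_lc.QuasiPCP
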